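import Pool.Agent.Run7.h204.JmMain

open Cardinal Run7.h204.Jm

namespace Pool.Agent.Results.MP_69a01b_lc.NotSmallest

/-- Q1 answered in the negative, for every infinite cardinal `m`: there are a Boolean algebra `A`,
an `m`-completion `{i, B}` of `A` and a member `{i', B'}` of the class `K` of
`(J, M, m)`-extensions of `A` (with `J = M = ∅`) such that no `m`-homomorphism `h : B' → B`
satisfies `i = h ∘ i'`. -/
theorem result (m : Cardinal.{0}) (hm : ℵ₀ ≤ m) :
    ¬ Q1For m ∧
    ∃ (A B B' : Type) (_ : BooleanAlgebra A) (_ : BooleanAlgebra B) (_ : BooleanAlgebra B')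
      (i : BoundedLatticeHom A B) (i' : BoundedLatticeHom A B'),
      IsCompletion m i ∧ IsExtension m (∅ : Set (Set A)) ∅ i ∧
        IsExtension m (∅ : Set (Set A)) ∅ i' ∧ ¬ ExtLE m i i' := by
  refine ⟨fun hQ => ?_, Run7.h204.Jm.A, Run7.h204.Jm.B, Set Y, inferInstance, inferInstance,
    inferInstance, iB, iY, iB_completion hm, ?_, iY_extension hm, not_le hm⟩
  · exact not_le hm (hQ Run7.h204.Jm.A ∅ ∅ (fun S hS => absurd hS (Set.notMem_empty S))
      (fun S hS => absurd hS (Set.notMem_empty S)) Run7.h204.Jm.B iB (iB_completion hm)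
      (Set Y) iY (iY_extension hm))
  · obtain ⟨h1, h2, _, h4⟩ := iB_completion hm
    exact ⟨h1, h2, fun S hS => absurd hS (Set.notMem_empty S),
      fun S hS => absurd hS (Set.notMem_empty S), h4⟩

end Pool.Agent.Results.MP_69a01b_lc.NotSmallest
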